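import Pool.Agent.H464R2.LHY.Int

open MeasureTheory UnitAddTorus
open scoped ComplexConjugate ENNReal

namespace Pool.Agent.H751R2.LHY

noncomputable section

theorem h459_bs3 {ι : Type*} [Finite ι] : BorelSpace (ι → T3) := by
  have := Fintype.ofFinite ι
  have : SecondCountableTopology T3 := inferInstance
  have : BorelSpace T3 := inferInstance
  exact Pi.borelSpace (ι := ι) (X := fun _ => T3)

attribute [local instance] h459_bs3

theorem h459_bs4 {ι : Type*} [Finite ι] : BorelSpace (T3 × (T3 × (ι → T3))) := by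
  have := Fintype.ofFinite ι
  have : SecondCountableTopology T3 := inferInstance
  have : SecondCountableTopology (ι → T3) :=
    TopologicalSpace.instSecondCountableTopologyForallOfCountable (ι := ι) (X := fun _ => T3)
  have : BorelSpace T3 := inferInstance
  have : BorelSpace (T3 × (ι → T3)) := Prod.borelSpace
  exact Prod.borelSpace

attribute [local instance] h459_bs4

theorem h459_haar {ι : Type} [Fintype ι] :
    Measure.IsAddHaarMeasure (volume : Measure (T3 × (T3 × (ι → T3)))) := by
  have i1 : Measure.IsAddHaarMeasure (volume : Measure T3) := inferInstance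
  have : SecondCountableTopology T3 := inferInstance
  have : SecondCountableTopology (ι → T3) :=
    TopologicalSpace.instSecondCountableTopologyForallOfCountable (ι := ι) (X := fun _ => T3)
  have i2 : Measure.IsAddHaarMeasure (volume : Measure (ι → T3)) :=
    Measure.pi.isAddHaarMeasure (ι := ι) (α := fun _ => T3) (fun _ => volume)
  have i3 : Measure.IsAddHaarMeasure (volume : Measure (T3 × (ι → T3))) :=
    Measure.prod.instIsAddHaarMeasure _ _
  exact Measure.prod.instIsAddHaarMeasure _ _

attribute [local instance] h459_haar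

/-- the other particles -/
abbrev H459Oth {N : ℕ} (i j : Fin N) := {l : Fin N // l ≠ i ∧ l ≠ j}

/-- splitting off the particles `i` and `j` -/
def h459_split {N : ℕ} (i j : Fin N) : Cfg N →+ T3 × (T3 × (H459Oth i j → T3)) where
  toFun x := (pos x i, (pos x j, fun l => pos x l.1))
  map_zero' := rfl
  map_add' _ _ := rfl

theorem h459_mp_split {N : ℕ} {i j : Fin N} (hij : i ≠ j) :
    MeasurePreserving (h459_split i j) (volume : Measure (Cfg N))
      (volume : Measure (T3 × (T3 × (H459Oth i j → T3)))) := by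
  classical
  refine AddMonoidHom.measurePreserving (μ := (volume : Measure (Cfg N)))
    (ν := (volume : Measure (T3 × (T3 × (H459Oth i j → T3))))) (f := h459_split i j) ?_ ?_ ?_
  · change Continuous fun x : Cfg N => (pos x i, (pos x j, fun l : H459Oth i j => pos x l.1))
    unfold pos
    fun_prop
  · rintro ⟨a, b, z⟩
    refine ⟨fun p => if h : p.1 ≠ i ∧ p.1 ≠ j then z ⟨p.1, h⟩ p.2 else
      if p.1 = i then a p.2 else b p.2, ?_⟩
    have e : ∀ x : Cfg N, h459_split i j x =
        (pos x i, (pos x j, fun l : H459Oth i j => pos x l.1)) := fun _ => rfl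
    rw [e]
    refine Prod.ext ?_ (Prod.ext ?_ ?_)
    · funext α
      change (if h : i ≠ i ∧ i ≠ j then z ⟨i, h⟩ α else if i = i then a α else b α) = a α
      simp
    · funext α
      change (if h : j ≠ i ∧ j ≠ j then z ⟨j, h⟩ α else if j = i then a α else b α) = b α
      simp [hij.symm]
    · funext l α
      change (if h : l.1 ≠ i ∧ l.1 ≠ j then z ⟨l.1, h⟩ α else
        if l.1 = i then a α else b α) = z l α
      rw [dif_pos l.2]
  · rw [measure_univ, measure_univ]

theorem h459_prod_split {N : ℕ} {i j : Fin N} (hij : i ≠ j) (g : Fin N → ℂ) :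
    ∏ l, g l = g i * (g j * ∏ l : H459Oth i j, g l.1) := by
  classical
  have h1 : ∏ l : H459Oth i j, g l.1 = ∏ l ∈ Finset.univ.filter (fun l => l ≠ i ∧ l ≠ j), g l := by
    rw [Finset.prod_subtype (p := fun l => l ≠ i ∧ l ≠ j)]
    intro x; simp
  have h2 : (Finset.univ : Finset (Fin N)) =
      insert i (insert j (Finset.univ.filter (fun l => l ≠ i ∧ l ≠ j))) := by
    ext l
    simp only [Finset.mem_univ, Finset.mem_insert, Finset.mem_filter, true_and, true_iff]
    tauto
  rw [h1]
  conv_lhs => rw [h2]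
  rw [Finset.prod_insert, Finset.prod_insert]
  · simp
  · simp [hij]

theorem h459_card {N : ℕ} {i j : Fin N} (hij : i ≠ j) : Fintype.card (H459Oth i j) = N - 2 := by
  classical
  have h2 : (Finset.univ : Finset (Fin N)) =
      insert i (insert j (Finset.univ.filter (fun l => l ≠ i ∧ l ≠ j))) := by
    ext l
    simp only [Finset.mem_univ, Finset.mem_insert, Finset.mem_filter, true_and, true_iff]
    tauto
  have h3 := congrArg Finset.card h2
  rw [Finset.card_insert_of_notMem (by simp [hij]), Finset.card_insert_of_notMem (by simp),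
    Finset.card_univ, Fintype.card_fin] at h3
  rw [Fintype.card_subtype]
  omega

/-- subtraction of two torus variables on the split space -/
def h459_dif (X : Type) [AddCommGroup X] : T3 × (T3 × X) →+ T3 where
  toFun p := p.1 - p.2.1
  map_zero' := by simp
  map_add' p q := by
    simp only [Prod.fst_add, Prod.snd_add]
    abel

theorem h459_mp_dif {ι : Type} [Fintype ι] :
    MeasurePreserving (h459_dif (ι → T3)) (volume : Measure (T3 × (T3 × (ι → T3))))
      (volume : Measure T3) := by
  refine AddMonoidHom.measurePreserving (μ := (volume : Measure (T3 × (T3 × (ι → T3)))))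
    (ν := (volume : Measure T3)) (f := h459_dif (ι → T3)) ?_ ?_ ?_
  · change Continuous fun p : T3 × (T3 × (ι → T3)) => p.1 - p.2.1
    fun_prop
  · intro y
    exact ⟨(y, (0, 0)), by simp [h459_dif]⟩
  · rw [measure_univ, measure_univ]

theorem h459_bdd {X : Type*} [TopologicalSpace X] [CompactSpace X] (F : X → ℂ)
    (hF : Continuous F) : ∃ C : ℝ, ∀ x, ‖F x‖ ≤ C := by
  have h := isCompact_range hF
  obtain ⟨C, hC⟩ := h.isBounded.exists_norm_le
  exact ⟨C, fun x => hC _ ⟨x, rfl⟩⟩

theorem h459_int_split {ι : Type} [Fintype ι] {W : T3 → ℝ} (hW : Integrable W)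
    {F : T3 × (T3 × (ι → T3)) → ℂ} (hF : Continuous F) :
    Integrable (fun p : T3 × (T3 × (ι → T3)) => (W (p.1 - p.2.1) : ℂ) * F p) := by
  obtain ⟨C, hC⟩ := h459_bdd F hF
  have h1 : Integrable (fun p : T3 × (T3 × (ι → T3)) => (W (p.1 - p.2.1) : ℂ)) :=
    ((h459_mp_dif (ι := ι)).integrable_comp_of_integrable hW).ofReal
  exact h1.mul_bdd hF.aestronglyMeasurable (Filter.Eventually.of_forall hC)

/-- the product integral -/
theorem h459_prodint {N : ℕ} {i j : Fin N} (hij : i ≠ j) {W : T3 → ℝ} (hW : Integrable W)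
    (G : T3 → ℂ) (hG : Continuous G) :
    Integrable (fun x : Cfg N => (W (pos x i - pos x j) : ℂ) * ∏ l, G (pos x l)) ∧
    ∫ x : Cfg N, (W (pos x i - pos x j) : ℂ) * ∏ l, G (pos x l) =
      quad W G * (∫ y, G y) ^ (N - 2) := by
  classical
  set F : T3 × (T3 × (H459Oth i j → T3)) → ℂ :=
    fun p => (W (p.1 - p.2.1) : ℂ) * (G p.1 * (G p.2.1 * ∏ l, G (p.2.2 l))) with hF
  have hcont : Continuous fun p : T3 × (T3 × (H459Oth i j → T3)) =>
      G p.1 * (G p.2.1 * ∏ l, G (p.2.2 l)) := by
    fun_prop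
  have hFint : Integrable F := h459_int_split hW hcont
  have hcomp : ∀ x : Cfg N, (W (pos x i - pos x j) : ℂ) * ∏ l, G (pos x l) =
      F (h459_split i j x) := by
    intro x
    rw [h459_prod_split hij (fun l => G (pos x l))]
    rfl
  have hmp := h459_mp_split hij
  constructor
  · simp_rw [hcomp]
    exact hmp.integrable_comp_of_integrable hFint
  · simp_rw [hcomp]
    have h1 : ∫ x : Cfg N, F (h459_split i j x) = ∫ p, F p := by
      have h5 := integral_map hmp.measurable.aemeasurable
        (f := F) (by rw [hmp.map_eq]; exact hFint.aestronglyMeasurable)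
      rw [hmp.map_eq] at h5
      exact h5.symm
    rw [h1]
    have h2 : ∫ p, F p = ∫ a : T3, ∫ b : T3 × (H459Oth i j → T3), F (a, b) :=
      integral_prod F hFint
    rw [h2]
    have h3 : ∀ a : T3, ∫ b : T3 × (H459Oth i j → T3), F (a, b) =
        (∫ b : T3, (W (a - b) : ℂ) * G a * G b) * (∫ y, G y) ^ (N - 2) := by
      intro a
      have h4 : ∫ b : T3 × (H459Oth i j → T3), F (a, b) =
          ∫ b : T3 × (H459Oth i j → T3), ((W (a - b.1) : ℂ) * G a * G b.1) * ∏ l, G (b.2 l) := by
        refine integral_congr_ae (Filter.Eventually.of_forall fun b => ?_)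
        simp only [hF]
        ring
      rw [h4]
      have h5 := integral_prod_mul (μ := (volume : Measure T3))
        (ν := (volume : Measure (H459Oth i j → T3)))
        (fun b : T3 => (W (a - b) : ℂ) * G a * G b) (fun z => ∏ l, G (z l))
      have h6 : ∫ z : H459Oth i j → T3, ∏ l, G (z l) = (∫ y, G y) ^ (N - 2) := by
        rw [integral_fintype_prod_volume_eq_pow, h459_card hij]
      rw [h6] at h5
      exact h5
    simp_rw [h3]
    rw [integral_mul_const]
    rfl

/-! ### the one-particle integral -/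

theorem h459_mF_ne {d : Type*} [Fintype d] [DecidableEq d] {n : d → ℤ} (hn : n ≠ 0) :
    ∫ y : UnitAddTorus d, mFourier n y = 0 := by
  obtain ⟨a, ha⟩ : ∃ a, n a ≠ 0 := by
    by_contra hcon
    push Not at hcon
    exact hn (funext hcon)
  obtain ⟨t, ht⟩ := h464_exists_ne ha
  have h1 : ∫ y : UnitAddTorus d, mFourier n (y + Pi.single a t) =
      ∫ y : UnitAddTorus d, mFourier n y :=
    integral_add_right_eq_self (fun y => mFourier n y) (Pi.single a t)
  simp_rw [h464_mF_add, h464_mF_single] at h1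
  rw [integral_mul_const] at h1
  have h4 : (∫ y : UnitAddTorus d, mFourier n y) * (fourier (n a) t - 1) = 0 := by
    linear_combination h1
  exact (mul_eq_zero.mp h4).resolve_right (sub_ne_zero.mpr ht)

theorem h459_cas (n : Mom) (y : T3) : (cas n y : ℂ) =
    ((1 - Complex.I) / 2) * mFourier n y + ((1 + Complex.I) / 2) * mFourier (-n) y := by
  have h1 : mFourier (-n) y = conj (mFourier n y) := by
    rw [mFourier_neg]
  rw [h1]
  unfold cas
  set z := mFourier n y
  have h2 : z = (z.re : ℂ) + z.im * Complex.I := (Complex.re_add_im z).symm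
  have h3 : conj z = (z.re : ℂ) - z.im * Complex.I := by
    apply Complex.ext <;> simp
  have hI : Complex.I ^ 2 = -1 := Complex.I_sq
  have h4 : ((z.re + z.im : ℝ) : ℂ) = (1 - Complex.I) / 2 * ((z.re : ℂ) + z.im * Complex.I) +
      (1 + Complex.I) / 2 * ((z.re : ℂ) - z.im * Complex.I) := by
    push_cast
    linear_combination ((z.im : ℂ)) * hI
  rw [h3, h4, ← h2]

theorem h459_cas_cont (n : Mom) : Continuous (cas n) := by
  unfold cas
  exact (Complex.continuous_re.comp (mFourier n).continuous).add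
    (Complex.continuous_im.comp (mFourier n).continuous)

theorem h459_int_cont {F : T3 → ℂ} (hF : Continuous F) : Integrable F := by
  obtain ⟨C, hC⟩ := h459_bdd F hF
  exact Integrable.of_bound hF.aestronglyMeasurable C (Filter.Eventually.of_forall hC)

theorem h459_int_cas {n : Mom} (hn : n ≠ 0) : ∫ y : T3, (cas n y : ℂ) = 0 := by
  simp_rw [h459_cas]
  rw [integral_add, integral_const_mul, integral_const_mul, h459_mF_ne hn,
    h459_mF_ne (neg_ne_zero.2 hn)]
  · simp
  · exact (h459_int_cont (mFourier n).continuous).const_mul _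
  · exact (h459_int_cont (mFourier (-n)).continuous).const_mul _

theorem h459_mF_int (n : Mom) : ∫ y : T3, mFourier n y = if n = 0 then 1 else 0 := by
  split_ifs with h
  · subst h
    rw [mFourier_zero]
    simp
  · exact h459_mF_ne h

theorem h459_int_cas_cas {n m : Mom} (hn : n ≠ 0) (hm : m ≠ 0) :
    ∫ y : T3, (cas n y : ℂ) * (cas m y : ℂ) = if n = m then 1 else 0 := by
  have h1 : ∀ y : T3, (cas n y : ℂ) * (cas m y : ℂ) =
      (((1 - Complex.I) / 2) ^ 2) * mFourier (n + m) y +
      ((((1 - Complex.I) / 2) * ((1 + Complex.I) / 2)) * mFourier (n - m) y +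
      ((((1 + Complex.I) / 2) * ((1 - Complex.I) / 2)) * mFourier (m - n) y +
      (((1 + Complex.I) / 2) ^ 2) * mFourier (-n - m) y)) := by
    intro y
    rw [h459_cas, h459_cas]
    have e1 : mFourier (n + m) y = mFourier n y * mFourier m y := by
      rw [mFourier_add]
    have e2 : mFourier (n - m) y = mFourier n y * mFourier (-m) y := by
      rw [sub_eq_add_neg, mFourier_add]
    have e3 : mFourier (m - n) y = mFourier m y * mFourier (-n) y := by
      rw [sub_eq_add_neg, mFourier_add]
    have e4 : mFourier (-n - m) y = mFourier (-n) y * mFourier (-m) y := by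
      rw [sub_eq_add_neg, mFourier_add]
    rw [e1, e2, e3, e4]
    ring
  simp_rw [h1]
  have hi : ∀ (c : ℂ) (k : Mom), Integrable (fun y : T3 => c * mFourier k y) := fun c k =>
    (h459_int_cont (mFourier k).continuous).const_mul c
  have hi2 : ∀ (c c' : ℂ) (k k' : Mom), Integrable (fun y : T3 => c * mFourier k y +
      c' * mFourier k' y) := fun c c' k k' => (hi c k).add (hi c' k')
  have hi3 : ∀ (c c' c'' : ℂ) (k k' k'' : Mom), Integrable (fun y : T3 => c * mFourier k y +
      (c' * mFourier k' y + c'' * mFourier k'' y)) := fun c c' c'' k k' k'' =>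
    (hi c k).add (hi2 c' c'' k' k'')
  rw [integral_add (hi _ _) (hi3 _ _ _ _ _ _), integral_add (hi _ _) (hi2 _ _ _ _),
    integral_add (hi _ _) (hi _ _)]
  simp_rw [integral_const_mul, h459_mF_int]
  have hI : Complex.I ^ 2 = -1 := Complex.I_sq
  by_cases h : n = m
  · subst h
    have h2 : n + n ≠ 0 := by
      intro hc
      apply hn
      ext a
      have := congrFun hc a
      simp only [Pi.add_apply, Pi.zero_apply] at this ⊢
      omega
    have h3 : -n - n ≠ 0 := by
      intro hc
      apply h2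
      have : -(n + n) = 0 := by rw [← hc]; abel
      exact neg_eq_zero.1 this
    simp only [h2, h3, sub_self, if_true, if_false]
    linear_combination (-1 / 2 : ℂ) * hI
  · have h2 : n - m ≠ 0 := sub_ne_zero.2 h
    have h3 : m - n ≠ 0 := sub_ne_zero.2 (Ne.symm h)
    by_cases h4 : n + m = 0
    · have h5 : -n - m = 0 := by
        have : -n - m = -(n + m) := by abel
        rw [this, h4, neg_zero]
      simp only [h2, h3, h4, h5, h, if_true, if_false]
      linear_combination (1 / 2 : ℂ) * hI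
    · have h5 : -n - m ≠ 0 := by
        intro hc
        apply h4
        have : -n - m = -(n + m) := by abel
        rw [this] at hc
        exact neg_eq_zero.1 hc
      simp [h2, h3, h4, h5, h]

theorem h459_sr_norm (c : Mom → ℝ) (n : Mom) : conj (sr c n) * sr c n = (|c n| : ℝ) := by
  unfold sr
  split_ifs with h
  · rw [Complex.conj_ofReal, ← Complex.ofReal_mul, Real.mul_self_sqrt (by linarith),
      abs_of_nonpos h]
  · push Not at h
    rw [map_mul, Complex.conj_I, Complex.conj_ofReal, abs_of_pos h]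
    have h1 : (Real.sqrt (c n) : ℂ) * Real.sqrt (c n) = (c n : ℂ) := by
      rw [← Complex.ofReal_mul, Real.mul_self_sqrt h.le]
    have hI : Complex.I ^ 2 = -1 := Complex.I_sq
    linear_combination h1 - (Real.sqrt (c n) : ℂ) * Real.sqrt (c n) * hI

theorem h459_uf_cont (B0 : Finset Mom) (c : Mom → ℝ) (ξ : B0 → Bool) :
    Continuous (uf B0 c ξ) := by
  unfold uf
  refine continuous_const.add (continuous_finsetSum _ fun n _ => ?_)
  exact continuous_const.mul (Complex.continuous_ofReal.comp (h459_cas_cont n))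

theorem h459_intG {B0 : Finset Mom} (hB0 : Sym B0) (c : Mom → ℝ) (ξ ξ' : B0 → Bool) :
    ∫ y, conj (uf B0 c ξ y) * uf B0 c ξ' y =
      ((1 + ∑ n : B0, |c n| * (sg (ξ n) * sg (ξ' n)) : ℝ) : ℂ) := by
  have hne : ∀ n : B0, (n : Mom) ≠ 0 := fun n h => hB0.zero (h ▸ n.2)
  have h1 : ∀ y, conj (uf B0 c ξ y) * uf B0 c ξ' y =
      1 + (∑ n : B0, (conj (sr c n) * (sg (ξ n) : ℂ)) * (cas n y : ℂ)) +
      (∑ m : B0, (sr c m * (sg (ξ' m) : ℂ)) * (cas m y : ℂ)) +
      ∑ n : B0, ∑ m : B0, ((conj (sr c n) * (sg (ξ n) : ℂ)) * (sr c m * (sg (ξ' m) : ℂ))) *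
        ((cas n y : ℂ) * (cas m y : ℂ)) := by
    intro y
    unfold uf
    rw [map_add, map_one, map_sum]
    have e1 : ∀ n : B0, conj (sr c n * (sg (ξ n) : ℂ) * (cas n y : ℂ)) =
        (conj (sr c n) * (sg (ξ n) : ℂ)) * (cas n y : ℂ) := by
      intro n
      rw [map_mul, map_mul, Complex.conj_ofReal, Complex.conj_ofReal]
    simp_rw [e1]
    have e3 : ∀ A B : ℂ, (1 + A) * (1 + B) = 1 + A + B + A * B := by
      intro A B; ring
    rw [e3, Finset.sum_mul_sum]
    have e2 : ∀ n m : B0, ((conj (sr c n) * (sg (ξ n) : ℂ)) * (cas n y : ℂ)) *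
        ((sr c m * (sg (ξ' m) : ℂ)) * (cas m y : ℂ)) =
        ((conj (sr c n) * (sg (ξ n) : ℂ)) * (sr c m * (sg (ξ' m) : ℂ))) *
        ((cas n y : ℂ) * (cas m y : ℂ)) := by
      intro n m; ring
    simp_rw [e2]
  have hcas : ∀ n : Mom, Continuous fun y : T3 => (cas n y : ℂ) := fun n =>
    Complex.continuous_ofReal.comp (h459_cas_cont n)
  simp_rw [h1]
  have i0 : Integrable (fun _ : T3 => (1 : ℂ)) := h459_int_cont continuous_const
  have i1 : ∀ (a : B0 → ℂ), Integrable (fun y : T3 => ∑ n : B0, a n * (cas n y : ℂ)) := fun a =>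
    h459_int_cont (continuous_finsetSum _ fun n _ => continuous_const.mul (hcas n))
  have i2 : ∀ (a : B0 → B0 → ℂ), Integrable (fun y : T3 => ∑ n : B0, ∑ m : B0, a n m *
      ((cas n y : ℂ) * (cas m y : ℂ))) := fun a =>
    h459_int_cont (continuous_finsetSum _ fun n _ => continuous_finsetSum _ fun m _ =>
      continuous_const.mul ((hcas n).mul (hcas m)))
  have i3 : ∀ (a : B0 → ℂ), Integrable (fun y : T3 => 1 + ∑ n : B0, a n * (cas n y : ℂ)) :=
    fun a => i0.add (i1 a)
  have i4 : ∀ (a b : B0 → ℂ), Integrable (fun y : T3 => 1 + (∑ n : B0, a n * (cas n y : ℂ)) +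
      ∑ n : B0, b n * (cas n y : ℂ)) :=
    fun a b => (i3 a).add (i1 b)
  rw [integral_add (i4 _ _) (i2 _), integral_add (i3 _) (i1 _), integral_add i0 (i1 _)]
  have j1 : ∀ (a : B0 → ℂ), ∫ y : T3, ∑ n : B0, a n * (cas n y : ℂ) = 0 := by
    intro a
    have k1 : ∀ n : B0, Integrable (fun y : T3 => a n * (cas n y : ℂ)) := fun n =>
      h459_int_cont (continuous_const.mul (hcas n))
    rw [integral_finsetSum _ fun n _ => k1 n]
    refine Finset.sum_eq_zero fun n _ => ?_
    rw [integral_const_mul, h459_int_cas (hne n), mul_zero]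
  have j2 : ∀ (a : B0 → B0 → ℂ), ∫ y : T3, ∑ n : B0, ∑ m : B0, a n m *
      ((cas n y : ℂ) * (cas m y : ℂ)) = ∑ n : B0, a n n := by
    intro a
    have k2 : ∀ n m : B0, Integrable (fun y : T3 => a n m * ((cas n y : ℂ) * (cas m y : ℂ))) :=
      fun n m => h459_int_cont (continuous_const.mul ((hcas n).mul (hcas m)))
    have k3 : ∀ n : B0, Integrable (fun y : T3 => ∑ m : B0, a n m *
        ((cas n y : ℂ) * (cas m y : ℂ))) :=
      fun n => h459_int_cont (continuous_finsetSum _ fun m _ =>
        continuous_const.mul ((hcas n).mul (hcas m)))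
    rw [integral_finsetSum _ fun n _ => k3 n]
    refine Finset.sum_congr rfl fun n _ => ?_
    rw [integral_finsetSum _ fun m _ => k2 n m]
    rw [Finset.sum_eq_single n]
    · rw [integral_const_mul, h459_int_cas_cas (hne n) (hne n), if_pos rfl, mul_one]
    · intro m _ hmn
      rw [integral_const_mul, h459_int_cas_cas (hne n) (hne m), if_neg, mul_zero]
      intro h
      exact hmn (Subtype.ext h.symm)
    · intro h
      exact absurd (Finset.mem_univ n) h
  rw [j1, j1, j2]
  have k1 : ∫ _ : T3, (1 : ℂ) = 1 := by simp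
  rw [k1]
  push_cast
  rw [add_zero, add_zero]
  congr 1
  refine Finset.sum_congr rfl fun n _ => ?_
  have := h459_sr_norm c n
  linear_combination ((sg (ξ n) : ℂ) * (sg (ξ' n) : ℂ)) * this

theorem trial_pot (N : ℕ) {W : T3 → ℝ} (hW : Pot W) {B0 : Finset Mom} (hB0 : Sym B0)
    {c : Mom → ℝ} (hc : ∀ n, c (-n) = c n) (a : (Fin N → Mom) → ℂ)
    (ha : ∀ x : Cfg N, trig (insert 0 B0) a x = ∑ ξ : B0 → Bool, ∏ i, uf B0 c ξ (pos x i)) :
    (potF (insert 0 B0) a W : ℂ) = (1 / 2) * (N * (N - 1)) *
      ∑ ξ : B0 → Bool, ∑ ξ' : B0 → Bool,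
        quad W (fun y => conj (uf B0 c ξ y) * uf B0 c ξ' y) *
          ((1 + ∑ n : B0, |c n| * (sg (ξ n) * sg (ξ' n)) : ℝ) : ℂ) ^ (N - 2) := by
  classical
  set S : ℂ := ∑ ξ : B0 → Bool, ∑ ξ' : B0 → Bool,
        quad W (fun y => conj (uf B0 c ξ y) * uf B0 c ξ' y) *
          ((1 + ∑ n : B0, |c n| * (sg (ξ n) * sg (ξ' n)) : ℝ) : ℂ) ^ (N - 2) with hS
  have hGc : ∀ ξ ξ' : B0 → Bool, Continuous (fun y => conj (uf B0 c ξ y) * uf B0 c ξ' y) :=
    fun ξ ξ' => (Complex.continuous_conj.comp (h459_uf_cont B0 c ξ)).mul (h459_uf_cont B0 c ξ')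
  have key : ∀ i j : Fin N, i ≠ j →
      ((∫ x : Cfg N, W (pos x i - pos x j) * ‖trig (insert 0 B0) a x‖ ^ 2 : ℝ) : ℂ) = S := by
    intro i j hij
    have h1 : ((∫ x : Cfg N, W (pos x i - pos x j) * ‖trig (insert 0 B0) a x‖ ^ 2 : ℝ) : ℂ) =
        ∫ x : Cfg N, ((W (pos x i - pos x j) * ‖trig (insert 0 B0) a x‖ ^ 2 : ℝ) : ℂ) :=
      integral_ofReal.symm
    rw [h1]
    have h2 : ∀ x : Cfg N, ((W (pos x i - pos x j) * ‖trig (insert 0 B0) a x‖ ^ 2 : ℝ) : ℂ) =
        ∑ ξ : B0 → Bool, ∑ ξ' : B0 → Bool, (W (pos x i - pos x j) : ℂ) *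
          ∏ l, (conj (uf B0 c ξ (pos x l)) * uf B0 c ξ' (pos x l)) := by
      intro x
      have e1 : ((‖trig (insert 0 B0) a x‖ ^ 2 : ℝ) : ℂ) =
          conj (trig (insert 0 B0) a x) * trig (insert 0 B0) a x := by
        rw [Complex.conj_mul']
        push_cast
        rfl
      rw [Complex.ofReal_mul, e1, ha x, map_sum, Finset.sum_mul_sum, Finset.mul_sum]
      refine Finset.sum_congr rfl fun ξ _ => ?_
      rw [Finset.mul_sum]
      refine Finset.sum_congr rfl fun ξ' _ => ?_
      rw [Finset.prod_mul_distrib, map_prod]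
    simp_rw [h2]
    have hi : ∀ ξ ξ' : B0 → Bool, Integrable (fun x : Cfg N => (W (pos x i - pos x j) : ℂ) *
          ∏ l, (conj (uf B0 c ξ (pos x l)) * uf B0 c ξ' (pos x l))) := fun ξ ξ' =>
      (h459_prodint hij hW.int _ (hGc ξ ξ')).1
    rw [integral_finsetSum _ fun ξ _ => integrable_finsetSum _ fun ξ' _ => hi ξ ξ', hS]
    refine Finset.sum_congr rfl fun ξ _ => ?_
    rw [integral_finsetSum _ fun ξ' _ => hi ξ ξ']
    refine Finset.sum_congr rfl fun ξ' _ => ?_
    rw [(h459_prodint hij hW.int _ (hGc ξ ξ')).2, h459_intG hB0]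
  unfold potF
  rw [Complex.ofReal_mul, Complex.ofReal_sum]
  have h3 : ∀ i : Fin N, ((∑ j ∈ Finset.univ.erase i,
      ∫ x : Cfg N, W (pos x i - pos x j) * ‖trig (insert 0 B0) a x‖ ^ 2 : ℝ) : ℂ) =
      ((N : ℂ) - 1) * S := by
    intro i
    rw [Complex.ofReal_sum, Finset.sum_congr rfl (fun j hj => key i j (Finset.ne_of_mem_erase hj).symm),
      Finset.sum_const, Finset.card_erase_of_mem (Finset.mem_univ i), Finset.card_univ,
      Fintype.card_fin, nsmul_eq_mul, Nat.cast_sub (by have := i.2; omega)]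
    simp
  rw [Finset.sum_congr rfl (fun i _ => h3 i), Finset.sum_const, Finset.card_univ,
    Fintype.card_fin, nsmul_eq_mul]
  push_cast
  ring

end

end Pool.Agent.H751R2.LHY
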