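import Pool.Agent.H459R2.LHY.TrialPot
import Pool.Agent.H464R2.LHY.Trial
import Pool.Agent.H3R2.LHY.QuadSum

open MeasureTheory UnitAddTorus
open scoped ComplexConjugate ENNReal

namespace Pool.Agent.H751R2.LHY

noncomputable section

theorem h459_sg_mul (a b : Bool) : sg a * sg b = sg (a == b) := by
  cases a <;> cases b <;> simp [sg]

theorem h459_dsum {ι : Type*} [Fintype ι] (h : ι → ℝ) (k : ℝ) :
    ∑ n : ι, ∑ n' : ι, k * (h n ^ 2 * h n' ^ 2) = k * (∑ n, h n ^ 2) ^ 2 := by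
  have e1 : ∀ n : ι, ∑ n' : ι, k * (h n ^ 2 * h n' ^ 2) = (k * ∑ n' : ι, h n' ^ 2) * h n ^ 2 := by
    intro n
    rw [Finset.mul_sum, Finset.sum_mul]
    refine Finset.sum_congr rfl fun n' _ => ?_
    ring
  simp_rw [e1]
  rw [← Finset.mul_sum]
  ring

theorem h459_final (N : ℕ) {B D Z K Q0 C P : ℝ} (hD : 0 < D) (hZ : 0 < Z) (hK : 0 ≤ K)
    (hQ : 0 ≤ Q0) (hC : 0 ≤ C) (hP : P = (1 / 2) * (N * (N - 1)) * B)
    (hB : B ≤ D * (Z * Q0 + 4 * K * (N * C) * Z + 4 * K * (N * C) ^ 2 * Z)) :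
    P ≤ ((N : ℝ) ^ 2 / 2) * (Q0 + 4 * K * (N * C) * (1 + N * C)) * (D * Z) := by
  have hN0 : (0 : ℝ) ≤ N := Nat.cast_nonneg N
  have hB0' : 0 ≤ D * (Z * Q0 + 4 * K * (N * C) * Z + 4 * K * (N * C) ^ 2 * Z) := by
    positivity
  have hNN : 0 ≤ (1 / 2) * ((N : ℝ) * (N - 1)) := by
    rcases Nat.eq_zero_or_pos N with h0 | h0
    · subst h0; simp
    · have h1 : (1 : ℝ) ≤ N := by exact_mod_cast h0
      have h2 : (0 : ℝ) ≤ N - 1 := by linarith
      positivity
  rw [hP]
  calc (1 / 2) * ((N : ℝ) * (N - 1)) * B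
      ≤ (1 / 2) * ((N : ℝ) * (N - 1)) *
        (D * (Z * Q0 + 4 * K * (N * C) * Z + 4 * K * (N * C) ^ 2 * Z)) :=
        mul_le_mul_of_nonneg_left hB hNN
    _ ≤ ((N : ℝ) ^ 2 / 2) *
        (D * (Z * Q0 + 4 * K * (N * C) * Z + 4 * K * (N * C) ^ 2 * Z)) := by
        apply mul_le_mul_of_nonneg_right _ hB0'
        nlinarith
    _ = ((N : ℝ) ^ 2 / 2) * (Q0 + 4 * K * (N * C) * (1 + N * C)) * (D * Z) := by ring

theorem upperB (N : ℕ) {W : T3 → ℝ} (hW : Pot W) {q : ℝ} (hq : 0 < q)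
    {B0 : Finset Mom} (hB0 : Sym B0) (c : Mom → ℝ) (hc : ∀ n, c (-n) = c n) :
    ∃ a : (Fin N → Mom) → ℂ, 0 < nrm (insert 0 B0) a ∧
      kinF (insert 0 B0) a q + potF (insert 0 B0) a W ≤
        ((N : ℝ) ^ 2 / 2) * ((∫ y, W y * (1 - wf B0 c y) ^ 2) + 2 * ∑ n ∈ B0, (q * sq n) * c n ^ 2
          + 4 * (∫ y, W y) * (N * ∑ n ∈ B0, c n ^ 2) * (1 + N * ∑ n ∈ B0, c n ^ 2))
          * nrm (insert 0 B0) a := by
  classical
  obtain ⟨a, ha, hn, hk⟩ := trial_exists N (q := q) hB0 hc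
  refine ⟨a, ?_, ?_⟩
  · rw [hn]
    have := zed_pos (fun n : B0 => |c n|) (fun n => abs_nonneg _) N
    positivity
  set h : B0 → ℝ := fun n : B0 => |c n| with hh
  have hh0 : ∀ κ, 0 ≤ h κ := fun n => abs_nonneg _
  set D : ℝ := 2 ^ Fintype.card B0 with hD
  have hD0 : 0 < D := by positivity
  set Z : ℕ → ℝ := fun k => ∑ η : B0 → Bool, zed h η ^ k with hZ
  have hZ0 : ∀ k, 0 < Z k := fun k => zed_pos h hh0 k
  have hZm : ∀ {k l : ℕ}, k ≤ l → Z k ≤ Z l := fun hkl => zed_mono h hh0 hkl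
  set K : ℝ := ∫ y, W y with hK
  have hK0 : 0 ≤ K := integral_nonneg hW.nonneg
  set Q0 : ℝ := ∫ y, W y * (1 - wf B0 c y) ^ 2 with hQ0
  have hQ00 : 0 ≤ Q0 := integral_nonneg fun y => mul_nonneg (hW.nonneg y) (sq_nonneg _)
  set C : ℝ := ∑ n ∈ B0, c n ^ 2 with hC
  have hCs : C = ∑ n : B0, h n ^ 2 := by
    rw [hC, ← Finset.sum_coe_sort]
    refine Finset.sum_congr rfl fun n _ => ?_
    simp [hh]
  have hC0 : 0 ≤ C := Finset.sum_nonneg fun n _ => sq_nonneg _
  have hN0 : (0 : ℝ) ≤ N := Nat.cast_nonneg N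
  -- kinetic energy
  have hkin : kinF (insert 0 B0) a q ≤ (N : ℝ) ^ 2 * (∑ n ∈ B0, (q * sq n) * c n ^ 2) *
      (D * Z N) := by
    rw [hk, ← Finset.sum_coe_sort B0 (fun n => (q * sq n) * c n ^ 2)]
    have e1 : ∀ n : B0, (q * sq (n : Mom)) * h n * (∑ η : B0 → Bool, sg (η n) * zed h η ^ (N - 1)) ≤
        (N * Z N) * ((q * sq (n : Mom)) * c n ^ 2) := by
      intro n
      have h1 := (zed_one h hh0 (N - 1) n).2
      have h2 : 0 ≤ q * sq (n : Mom) * h n :=
        mul_nonneg (mul_nonneg hq.le (Finset.sum_nonneg fun a _ => sq_nonneg _)) (hh0 n)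
      have h3 : ((N - 1 : ℕ) : ℝ) * h n * Z (N - 1) ≤ N * h n * Z N := by
        have : ((N - 1 : ℕ) : ℝ) ≤ N := by exact_mod_cast Nat.sub_le N 1
        have := hZm (Nat.sub_le N 1)
        have h0 := hh0 n
        have := hZ0 (N - 1)
        gcongr
      calc (q * sq (n : Mom)) * h n * (∑ η : B0 → Bool, sg (η n) * zed h η ^ (N - 1))
          ≤ (q * sq (n : Mom)) * h n * (N * h n * Z N) :=
            mul_le_mul_of_nonneg_left (h1.trans h3) h2
        _ = (N * Z N) * ((q * sq (n : Mom)) * h n ^ 2) := by ring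
        _ = (N * Z N) * ((q * sq (n : Mom)) * c n ^ 2) := by
            simp only [hh, sq_abs]
    have e2 := Finset.sum_le_sum fun (n : B0) (_ : n ∈ Finset.univ) => e1 n
    rw [← Finset.mul_sum] at e2
    have e3 : D * ((N : ℝ) * ∑ n : B0, (q * sq (n : Mom)) * h n *
        (∑ η : B0 → Bool, sg (η n) * zed h η ^ (N - 1))) ≤
        D * ((N : ℝ) * ((N * Z N) * ∑ n : B0, ((q * sq (n : Mom)) * c n ^ 2))) := by
      gcongr
    refine e3.trans (le_of_eq ?_)
    ring
  -- potential energy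
  have hpot : potF (insert 0 B0) a W ≤ ((N : ℝ) ^ 2 / 2) *
      (Q0 + 4 * K * (N * C) * (1 + N * C)) * (D * Z N) := by
    obtain ⟨J, J2, hJ, hJ2, hsum⟩ := quad_sum hW hB0 hc (fun η => zed h η ^ (N - 2))
    have hp := trial_pot N hW hB0 hc a ha
    have e1 : ∀ ξ ξ' : B0 → Bool,
        ((1 + ∑ n : B0, |c n| * (sg (ξ n) * sg (ξ' n)) : ℝ) : ℂ) ^ (N - 2) =
        ((zed h (fun n => ξ n == ξ' n) ^ (N - 2) : ℝ) : ℂ) := by
      intro ξ ξ'
      rw [Complex.ofReal_pow]
      congr 2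
      unfold zed
      congr 1
      refine Finset.sum_congr rfl fun n _ => ?_
      rw [h459_sg_mul]
    simp_rw [e1] at hp
    rw [hsum] at hp
    set B : ℝ := D * ((∑ η : B0 → Bool, zed h η ^ (N - 2)) * Q0
        + ∑ n : B0, |c n| * J n * (∑ η : B0 → Bool, sg (η n) * zed h η ^ (N - 2))
        + ∑ n : B0, ∑ n' ∈ Finset.univ.erase n, |c n| * |c n'| * J2 n n' *
            (∑ η : B0 → Bool, sg (η n) * sg (η n') * zed h η ^ (N - 2))) with hB
    have hp2 : potF (insert 0 B0) a W = (1 / 2) * (N * (N - 1)) * B := by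
      apply Complex.ofReal_injective
      rw [hp]
      push_cast
      rfl
    have hBle : B ≤ D * (Z N * Q0 + 4 * K * (N * C) * Z N + 4 * K * (N * C) ^ 2 * Z N) := by
      rw [hB]
      refine mul_le_mul_of_nonneg_left ?_ hD0.le
      have hZN := hZm (Nat.sub_le N 2)
      have hZN0 := hZ0 (N - 2)
      have hcast : ((N - 2 : ℕ) : ℝ) ≤ N := by exact_mod_cast Nat.sub_le N 2
      have b1 : (∑ η : B0 → Bool, zed h η ^ (N - 2)) * Q0 ≤ Z N * Q0 :=
        mul_le_mul_of_nonneg_right hZN hQ00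
      have b2 : ∑ n : B0, |c n| * J n * (∑ η : B0 → Bool, sg (η n) * zed h η ^ (N - 2)) ≤
          4 * K * (N * C) * Z N := by
        have : ∀ n : B0, |c n| * J n * (∑ η : B0 → Bool, sg (η n) * zed h η ^ (N - 2)) ≤
            (4 * K * N * Z N) * h n ^ 2 := by
          intro n
          obtain ⟨z0, z1⟩ := zed_one h hh0 (N - 2) n
          have z2 : ((N - 2 : ℕ) : ℝ) * h n * Z (N - 2) ≤ N * h n * Z N := by
            have h0 := hh0 n
            gcongr
          have z3 : (∑ η : B0 → Bool, sg (η n) * zed h η ^ (N - 2)) ≤ N * h n * Z N := z1.trans z2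
          have j1 := (hJ n).1
          have j2 := (hJ n).2
          calc |c n| * J n * (∑ η : B0 → Bool, sg (η n) * zed h η ^ (N - 2))
              ≤ |c n| * (4 * K) * (N * h n * Z N) := by
                apply mul_le_mul _ z3 z0 _
                · exact mul_le_mul_of_nonneg_left j2 (abs_nonneg _)
                · positivity
            _ = (4 * K * N * Z N) * h n ^ 2 := by
                simp only [hh]
                ring
        refine (Finset.sum_le_sum fun n _ => this n).trans (le_of_eq ?_)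
        rw [← Finset.mul_sum, ← hCs]
        ring
      have b3 : ∑ n : B0, ∑ n' ∈ Finset.univ.erase n, |c n| * |c n'| * J2 n n' *
            (∑ η : B0 → Bool, sg (η n) * sg (η n') * zed h η ^ (N - 2)) ≤
          4 * K * (N * C) ^ 2 * Z N := by
        have t1 : ∀ n : B0, ∀ n' ∈ Finset.univ.erase n, |c n| * |c n'| * J2 n n' *
            (∑ η : B0 → Bool, sg (η n) * sg (η n') * zed h η ^ (N - 2)) ≤
            (4 * K * N ^ 2 * Z N) * (h n ^ 2 * h n' ^ 2) := by
          intro n n' hn'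
          have hne : n ≠ n' := (Finset.ne_of_mem_erase hn').symm
          obtain ⟨z0, z1⟩ := zed_two h hh0 (N - 2) hne
          have z2 : ((N - 2 : ℕ) : ℝ) * h n * (((N - 2 : ℕ) : ℝ) * h n') * Z (N - 2) ≤
              (N * h n) * (N * h n') * Z N := by
            have h0 := hh0 n
            have h0' := hh0 n'
            gcongr
          have z3 := z1.trans z2
          have j2 := hJ2 n n' hne
          calc |c n| * |c n'| * J2 n n' *
                (∑ η : B0 → Bool, sg (η n) * sg (η n') * zed h η ^ (N - 2))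
              ≤ |c n| * |c n'| * (4 * K) *
                (∑ η : B0 → Bool, sg (η n) * sg (η n') * zed h η ^ (N - 2)) := by
                apply mul_le_mul_of_nonneg_right _ z0
                exact mul_le_mul_of_nonneg_left j2 (by positivity)
            _ ≤ |c n| * |c n'| * (4 * K) * ((N * h n) * (N * h n') * Z N) :=
                mul_le_mul_of_nonneg_left z3 (by positivity)
            _ = (4 * K * N ^ 2 * Z N) * (h n ^ 2 * h n' ^ 2) := by
                simp only [hh]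
                ring
        have t2 : ∀ n : B0, ∑ n' ∈ Finset.univ.erase n, |c n| * |c n'| * J2 n n' *
            (∑ η : B0 → Bool, sg (η n) * sg (η n') * zed h η ^ (N - 2)) ≤
            ∑ n' : B0, (4 * K * N ^ 2 * Z N) * (h n ^ 2 * h n' ^ 2) := by
          intro n
          refine (Finset.sum_le_sum (t1 n)).trans ?_
          refine Finset.sum_le_sum_of_subset_of_nonneg (Finset.subset_univ _) fun n' _ _ => ?_
          have := hZ0 N
          positivity
        refine (Finset.sum_le_sum fun n _ => t2 n).trans (le_of_eq ?_)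
        rw [h459_dsum, ← hCs]
        ring
      linarith
    exact h459_final N hD0 (hZ0 N) hK0 hQ00 hC0 hp2 hBle
  rw [hn]
  have := add_le_add hkin hpot
  refine this.trans (le_of_eq ?_)
  ring

end

end Pool.Agent.H751R2.LHY
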